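import Pool.Agent.H37.S3.CHN
import Pool.Agent.H20.LIVE.Tel2

/-!
# The shape and the height of the own leaf over a typical point

`b` is the context, the own leaf is `(M, κ)`: the height of the leaf over the point `y` is
`M + ev κ y`. `Y` is the position in the base, `E` its velocity, `D` the velocity in the fibre and
`N = M + ev κ Y` the own height. The typical point `Y*` is a copy of `Y` given the context and the
own leaf; it is part of the time variable. If the position and the velocity in the base are almost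
independent of the leaf, and given them the shape is almost independent of `(N, D)` and `D` is
almost independent of `(N, κ)`, then the shape is almost independent of `(N, Y, E, D)`, and the
height over `Y*` is almost independent of `(Y, E, D)` and of the shape.
-/

set_option autoImplicit false

namespace Pool.L12

open Finset Real
open Pool.Agent.H49.Ent Pool.Agent.H32.Dense Pool.STK Pool.KS3
open Pool.LIVE20 (mi mi_nonneg)

section

variable {Ω A A' K K' B B' : Type} [Fintype Ω] {p : Ω → ℝ}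

theorem mi_symm (hp : ∀ ω, 0 ≤ p ω) (a : Ω → A) (k : Ω → K) (b : Ω → B) :
    mi p a k b = mi p k a b := by
  unfold mi
  have h1 := CH_chain hp a k b
  have h2 := CH_chain hp k a b
  have h3 : CH p (fun ω => (a ω, k ω)) b = CH p (fun ω => (k ω, a ω)) b := by
    refine CH_congr hp ?_ ?_ (fun _ _ _ _ h => h) (fun _ _ _ _ h => h) <;>
    · intro ω ω' _ _ h
      simp only [Prod.mk.injEq] at h ⊢
      tauto
  linarith

/-- The chain rule in the second variable. -/
theorem mi_chain (a : Ω → A) (k : Ω → K) (k' : Ω → K') (b : Ω → B) :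
    mi p a (fun ω => (k ω, k' ω)) b ≤ mi p a k b + mi p a k' (fun ω => (k ω, b ω)) +
      (CH p a (fun ω => (k' ω, (k ω, b ω))) - CH p a (fun ω => ((k ω, k' ω), b ω))) := by
  unfold mi
  linarith

theorem mi_mono (hp : ∀ ω, 0 ≤ p ω) {a : Ω → A} {a' : Ω → A'} {k : Ω → K} {k' : Ω → K'}
    {b : Ω → B} {b' : Ω → B'} (ha : Det p (fun ω => (a ω, b ω)) a')
    (hk : Det p (fun ω => (k ω, b ω)) k') (h1 : Det p b b') (h2 : Det p b' b) :
    mi p a' k' b' ≤ mi p a k b := by
  unfold mi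
  have e1 : CH p a' b' = CH p a' b :=
    CH_congr hp (fun _ _ _ _ h => (Prod.ext_iff.mp h).1) (fun _ _ _ _ h => (Prod.ext_iff.mp h).1)
      h2 h1
  have e2 : CH p a' (fun ω => (k ω, b ω)) ≤ CH p a' (fun ω => (k' ω, b' ω)) := by
    refine CH_mono_cond hp ?_
    intro ω ω' p1 p2 h
    exact Prod.ext (hk ω ω' p1 p2 h) (h1 ω ω' p1 p2 (Prod.ext_iff.mp h).2)
  have c1 := CH_chain hp a a' b
  have c2 := CH_chain hp a a' (fun ω => (k ω, b ω))
  have e3 : CH p (fun ω => (a ω, a' ω)) b = CH p a b := by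
    refine CH_congr hp ?_ ?_ (fun _ _ _ _ h => h) (fun _ _ _ _ h => h)
    · intro ω ω' _ _ h
      exact (Prod.ext_iff.mp (Prod.ext_iff.mp h).1).1
    · intro ω ω' p1 p2 h
      exact Prod.ext (Prod.ext_iff.mp h).1 (ha ω ω' p1 p2 h)
  have e4 : CH p (fun ω => (a ω, a' ω)) (fun ω => (k ω, b ω)) = CH p a (fun ω => (k ω, b ω)) := by
    refine CH_congr hp ?_ ?_ (fun _ _ _ _ h => h) (fun _ _ _ _ h => h)
    · intro ω ω' _ _ h
      exact (Prod.ext_iff.mp (Prod.ext_iff.mp h).1).1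
    · intro ω ω' p1 p2 h
      refine Prod.ext (Prod.ext_iff.mp h).1 (ha ω ω' p1 p2 ?_)
      exact Prod.ext (Prod.ext_iff.mp h).1 (Prod.ext_iff.mp (Prod.ext_iff.mp h).2).2
  have e5 : CH p a (fun ω => (a' ω, (k ω, b ω))) ≤ CH p a (fun ω => (a' ω, b ω)) := by
    refine CH_mono_cond hp ?_
    intro ω ω' _ _ h
    simp only [Prod.mk.injEq] at h ⊢
    tauto
  linarith

/-- The chain rule. -/
theorem mi_pr (hp : ∀ ω, 0 ≤ p ω) (a : Ω → A) (k : Ω → K) (k' : Ω → K') (b : Ω → B) :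
    mi p a (fun ω => (k ω, k' ω)) b = mi p a k b + mi p a k' (fun ω => (k ω, b ω)) := by
  unfold mi
  have e : CH p a (fun ω => ((k ω, k' ω), b ω)) = CH p a (fun ω => (k' ω, (k ω, b ω))) := by
    refine CH_congr hp ?_ ?_ ?_ ?_ <;>
    · intro ω ω' _ _ h
      simp only [Prod.mk.injEq] at h ⊢
      tauto
  linarith

/-- A part of the second variable may be put into the condition. -/
theorem mi_cond_le (hp : ∀ ω, 0 ≤ p ω) (a : Ω → A) (k : Ω → K) (k' : Ω → K') (b : Ω → B) :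
    mi p a k' (fun ω => (k ω, b ω)) ≤ mi p a (fun ω => (k ω, k' ω)) b := by
  have h := mi_pr hp a k k' b
  have h1 := mi_nonneg hp a k b
  linarith

/-- A part of the first variable may be put into the condition. -/
theorem mi_cond_le' (hp : ∀ ω, 0 ≤ p ω) (a : Ω → A) (a' : Ω → A') (k : Ω → K) (b : Ω → B) :
    mi p a k (fun ω => (a' ω, b ω)) ≤ mi p (fun ω => (a ω, a' ω)) k b := by
  rw [mi_symm hp a k, mi_symm hp (fun ω => (a ω, a' ω)) k]
  refine (mi_cond_le hp k a' a b).trans ?_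
  refine mi_mono hp (fun _ _ _ _ h => (Prod.ext_iff.mp h).1) ?_ (fun _ _ _ _ h => h)
    (fun _ _ _ _ h => h)
  intro ω ω' _ _ h
  simp only [Prod.mk.injEq] at h ⊢
  tauto

end

section

variable {Ω Ω' S T U : Type} [Fintype Ω] [Fintype Ω']

theorem mi_marg {q : Ω' → ℝ} {p : Ω → ℝ} {pr : Ω' → Ω} (h : Marg q p pr) (A : Ω → S) (B : Ω → T)
    (Z : Ω → U) : mi q (fun w => A (pr w)) (fun w => B (pr w)) (fun w => Z (pr w)) =
      mi p A B Z := by
  have h1 := h.CH A Z
  have h2 := h.CH A (fun ω => (B ω, Z ω))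
  unfold mi
  rw [← h1, ← h2]

end

section

variable {Ω ℬ 𝒦 G : Type} [Fintype Ω]

/-- The context and the own leaf. -/
def lf (b : Ω → ℬ) (M : Ω → G) (κ : Ω → 𝒦) (ω : Ω) : ℬ × (G × 𝒦) := (b ω, (M ω, κ ω))

/-- The law with a typical point: a copy of the sample with the same context and own leaf. -/
noncomputable def typ (p : Ω → ℝ) (b : Ω → ℬ) (M : Ω → G) (κ : Ω → 𝒦) : Ω × Ω → ℝ :=
  glue p p (lf b M κ) (lf b M κ)

variable {p : Ω → ℝ} {b : Ω → ℬ} {M : Ω → G} {κ : Ω → 𝒦}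

theorem typ_nonneg (hp : ∀ ω, 0 ≤ p ω) (w : Ω × Ω) : 0 ≤ typ p b M κ w := glue_nonneg hp hp w

theorem typ_fst (hp : ∀ ω, 0 ≤ p ω) : Marg (typ p b M κ) p (fun w => w.1) :=
  marg_fst hp (fun _ => rfl)

theorem typ_snd (hp : ∀ ω, 0 ≤ p ω) : Marg (typ p b M κ) p (fun w => w.2) :=
  marg_snd hp (fun _ => rfl)

theorem typ_eq (hp : ∀ ω, 0 ≤ p ω) {w : Ω × Ω} (hw : 0 < typ p b M κ w) :
    b w.1 = b w.2 ∧ M w.1 = M w.2 ∧ κ w.1 = κ w.2 := by
  have h := ((glue_pos_iff hp hp w).1 hw).2.2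
  unfold lf at h
  simp only [Prod.mk.injEq] at h
  exact h

theorem typ_isLaw (hp : IsLaw p) : IsLaw (typ p b M κ) where
  nonneg := typ_nonneg hp.nonneg
  sum_one := by
    rw [← hp.sum_one]
    exact sum_glue hp.nonneg (fun _ => rfl)

theorem typ_CI (hp : ∀ ω, 0 ≤ p ω) {S T : Type} (A : Ω → S) (B : Ω → T) :
    CI (typ p b M κ) (fun w => A w.1) (fun w => B w.2) (fun w => lf b M κ w.1) :=
  CI_glue hp hp (fun _ => rfl) A B

/-- The copy is independent of the sample given the context and the own leaf. -/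
theorem mi_typ (hp : ∀ ω, 0 ≤ p ω) {S T U : Type} (A : Ω → S) (B : Ω → T) (Z : Ω → U)
    (hZ : Det p Z (lf b M κ)) :
    mi (typ p b M κ) (fun w => A w.1) (fun w => B w.2) (fun w => Z w.1) = 0 := by
  have hq := typ_nonneg (b := b) (M := M) (κ := κ) hp
  have hp1 : ∀ w : Ω × Ω, 0 < typ p b M κ w → 0 < p w.1 := fun w hw =>
    ((glue_pos_iff hp hp w).1 hw).1
  have h1 := (typ_CI (b := b) (M := M) (κ := κ) hp (fun ω => (Z ω, A ω)) B).symm hq
  have h2 : CI (typ p b M κ) (fun w => B w.2) (fun w => A w.1)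
      (fun w => (Z w.1, lf b M κ w.1)) := h1.weak hq
  have h3 : CI (typ p b M κ) (fun w => B w.2) (fun w => A w.1) (fun w => Z w.1) := by
    refine h2.congr hq (fun _ _ _ _ h => (Prod.ext_iff.mp h).1) ?_
    intro w w' hw hw' h
    exact Prod.ext h (hZ w.1 w'.1 (hp1 w hw) (hp1 w' hw') h)
  have h4 := h3.symm hq
  unfold CI at h4
  unfold mi
  rw [h4, sub_self]

theorem CH_repl {Ω S T : Type} [Fintype Ω] {q : Ω → ℝ} (hq : ∀ ω, 0 ≤ q ω) {A A' : Ω → S}
    {B B' : Ω → T} (h1 : ∀ ω, 0 < q ω → A ω = A' ω) (h2 : ∀ ω, 0 < q ω → B ω = B' ω) :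
    CH q A B = CH q A' B' := by
  refine CH_congr hq ?_ ?_ ?_ ?_
  · intro ω ω' a b h
    rw [← h1 ω a, ← h1 ω' b]
    exact (Prod.ext_iff.mp h).1
  · intro ω ω' a b h
    rw [h1 ω a, h1 ω' b]
    exact (Prod.ext_iff.mp h).1
  · intro ω ω' a b h
    rw [← h2 ω a, ← h2 ω' b]
    exact h
  · intro ω ω' a b h
    rw [h2 ω a, h2 ω' b]
    exact h

theorem mi_repl {Ω S T U : Type} [Fintype Ω] {q : Ω → ℝ} (hq : ∀ ω, 0 ≤ q ω) {A A' : Ω → S}
    {B B' : Ω → T} {Z Z' : Ω → U} (h1 : ∀ ω, 0 < q ω → A ω = A' ω)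
    (h2 : ∀ ω, 0 < q ω → B ω = B' ω) (h3 : ∀ ω, 0 < q ω → Z ω = Z' ω) :
    mi q A B Z = mi q A' B' Z' := by
  unfold mi
  rw [CH_repl hq h1 h3, CH_repl hq h1 (B := fun ω => (B ω, Z ω)) (B' := fun ω => (B' ω, Z' ω))
    fun ω hω => by rw [h2 ω hω, h3 ω hω]]

end

section

variable {Ω ℬ 𝒦 𝒴 ℰ 𝒟 G : Type} [Fintype Ω] [AddGroup G]

/-- The height of the own leaf over the point `y`. -/
def ht (M : Ω → G) (κ : Ω → 𝒦) (ev : 𝒦 → 𝒴 → G) (y : 𝒴) (ω : Ω) : G := M ω + ev (κ ω) y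

/-- The own height. -/
def own (M : Ω → G) (κ : Ω → 𝒦) (ev : 𝒦 → 𝒴 → G) (Y : Ω → 𝒴) (ω : Ω) : G := ht M κ ev (Y ω) ω

variable {p : Ω → ℝ} {b : Ω → ℬ} {M : Ω → G} {κ : Ω → 𝒦} {ev : 𝒦 → 𝒴 → G} {Y : Ω → 𝒴}
  {E : Ω → ℰ} {D : Ω → 𝒟} {e : ℝ}

omit [AddGroup G] in
/-- **(TI)** The typical point is almost independent of the sample. -/
theorem typ_ti (hp : ∀ ω, 0 ≤ p ω) (Y : Ω → 𝒴) :
    mi (typ p b M κ) (fun w => Y w.2) (fun w => w.1) (fun w => b w.1) =
      mi p Y (fun ω => (M ω, κ ω)) b := by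
  have hq := typ_nonneg (b := b) (M := M) (κ := κ) hp
  have h0 := mi_pr hq (fun w => Y w.2) (fun w => (M w.1, κ w.1)) (fun w => w.1) (fun w => b w.1)
  have h1 : mi (typ p b M κ) (fun w => Y w.2) (fun w => ((M w.1, κ w.1), w.1)) (fun w => b w.1) =
      mi (typ p b M κ) (fun w => Y w.2) (fun w => w.1) (fun w => b w.1) := by
    refine le_antisymm ?_ ?_
    · refine mi_mono hq (fun _ _ _ _ h => (Prod.ext_iff.mp h).1) ?_ (fun _ _ _ _ h => h)
        (fun _ _ _ _ h => h)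
      intro w w' _ _ h
      have h2 : w.1 = w'.1 := (Prod.ext_iff.mp h).1
      simp only [h2]
    · refine mi_mono hq (fun _ _ _ _ h => (Prod.ext_iff.mp h).1) ?_ (fun _ _ _ _ h => h)
        (fun _ _ _ _ h => h)
      intro w w' _ _ h
      exact (Prod.ext_iff.mp (Prod.ext_iff.mp h).1).2
  have h2 : mi (typ p b M κ) (fun w => Y w.2) (fun w => w.1)
      (fun w => ((M w.1, κ w.1), b w.1)) = 0 := by
    rw [mi_symm hq]
    refine mi_typ (b := b) (M := M) (κ := κ) hp (fun ω => ω) Y (fun ω => ((M ω, κ ω), b ω)) ?_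
    intro ω ω' _ _ h
    unfold lf
    simp only [Prod.mk.injEq] at h ⊢
    tauto
  have h3 : mi (typ p b M κ) (fun w => Y w.2) (fun w => (M w.1, κ w.1)) (fun w => b w.1) =
      mi p Y (fun ω => (M ω, κ ω)) b := by
    rw [← mi_marg (typ_snd (b := b) (M := M) (κ := κ) hp) Y (fun ω => (M ω, κ ω)) b]
    refine mi_repl hq (fun _ _ => rfl) ?_ ?_
    · intro w hw
      have h4 := typ_eq hp hw
      rw [h4.2.1, h4.2.2]
    · intro w hw
      exact (typ_eq hp hw).1
  rw [← h1, h0, h2, h3, add_zero]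

omit [AddGroup G] in
/-- **(L3)** The typical point does not change the entropy of the sample given the own leaf. -/
theorem typ_full (hp : ∀ ω, 0 ≤ p ω) {S T U : Type} (A : Ω → S) (B : Ω → T) (Z : Ω → U)
    (hZ : Det p Z (lf b M κ)) :
    CH (typ p b M κ) (fun w => A w.1) (fun w => (B w.2, Z w.1)) = CH p A Z := by
  have h1 := mi_typ (b := b) (M := M) (κ := κ) hp A B Z hZ
  have h2 := (typ_fst (b := b) (M := M) (κ := κ) hp).CH A Z
  unfold mi at h1
  linarith

/-- The shape is almost independent of the own height, the position and the velocities. -/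
theorem shape_le (hp : ∀ ω, 0 ≤ p ω)
    (hE : mi p (fun ω => (Y ω, E ω)) (fun ω => (M ω, κ ω)) b ≤ e)
    (hA : mi p κ (fun ω => (own M κ ev Y ω, D ω)) (fun ω => ((Y ω, E ω), b ω)) ≤ e) :
    mi p κ (fun ω => (own M κ ev Y ω, ((Y ω, E ω), D ω))) b ≤ 2 * e := by
  have s7 : mi p κ (fun ω => (own M κ ev Y ω, ((Y ω, E ω), D ω))) b ≤
      mi p κ (fun ω => ((Y ω, E ω), (own M κ ev Y ω, D ω))) b := by
    refine mi_mono hp (fun _ _ _ _ h => (Prod.ext_iff.mp h).1) ?_ (fun _ _ _ _ h => h)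
      (fun _ _ _ _ h => h)
    intro w w' _ _ h
    simp only [Prod.mk.injEq] at h ⊢
    tauto
  have s8 := mi_pr hp κ (fun ω => (Y ω, E ω)) (fun ω => (own M κ ev Y ω, D ω)) b
  have s9 : mi p κ (fun ω => (Y ω, E ω)) b ≤ e := by
    refine le_trans ?_ hE
    rw [mi_symm hp (fun ω => (Y ω, E ω))]
    refine mi_mono hp ?_ (fun _ _ _ _ h => (Prod.ext_iff.mp h).1) (fun _ _ _ _ h => h)
      (fun _ _ _ _ h => h)
    intro w w' _ _ h
    exact (Prod.ext_iff.mp (Prod.ext_iff.mp h).1).2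
  linarith

/-- **(L1)** The shape is almost independent of the own height, the position and the velocities,
given the typical point. -/
theorem typ_shape (hp : ∀ ω, 0 ≤ p ω)
    (hE : mi p (fun ω => (Y ω, E ω)) (fun ω => (M ω, κ ω)) b ≤ e)
    (hA : mi p κ (fun ω => (own M κ ev Y ω, D ω)) (fun ω => ((Y ω, E ω), b ω)) ≤ e) :
    mi (typ p b M κ) (fun w => κ w.1) (fun w => (own M κ ev Y w.1, ((Y w.1, E w.1), D w.1)))
      (fun w => (Y w.2, b w.1)) ≤ 3 * e := by
  have hq := typ_nonneg (b := b) (M := M) (κ := κ) hp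
  set W : Ω → G × ((𝒴 × ℰ) × 𝒟) := fun ω => (own M κ ev Y ω, ((Y ω, E ω), D ω)) with hW
  have s1 := mi_cond_le hq (fun w => κ w.1) (fun w => Y w.2) (fun w => W w.1) (fun w => b w.1)
  have s2 : mi (typ p b M κ) (fun w => κ w.1) (fun w => (Y w.2, W w.1)) (fun w => b w.1) ≤
      mi (typ p b M κ) (fun w => κ w.1) (fun w => (W w.1, Y w.2)) (fun w => b w.1) := by
    refine mi_mono hq (fun _ _ _ _ h => (Prod.ext_iff.mp h).1) ?_ (fun _ _ _ _ h => h)
      (fun _ _ _ _ h => h)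
    intro w w' _ _ h
    have h1 := Prod.ext_iff.mp (Prod.ext_iff.mp h).1
    exact Prod.ext h1.2 h1.1
  have s3 := mi_pr hq (fun w => κ w.1) (fun w => W w.1) (fun w => Y w.2) (fun w => b w.1)
  have s4 : mi (typ p b M κ) (fun w => κ w.1) (fun w => Y w.2) (fun w => (W w.1, b w.1)) ≤
      mi p Y (fun ω => (M ω, κ ω)) b := by
    rw [← typ_ti (b := b) (M := M) (κ := κ) hp Y]
    refine (mi_cond_le' hq (fun w => κ w.1) (fun w => W w.1) (fun w => Y w.2)
      (fun w => b w.1)).trans ?_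
    rw [mi_symm hq (fun w => Y w.2)]
    refine mi_mono hq ?_ (fun _ _ _ _ h => (Prod.ext_iff.mp h).1) (fun _ _ _ _ h => h)
      (fun _ _ _ _ h => h)
    intro w w' _ _ h
    have h1 : w.1 = w'.1 := (Prod.ext_iff.mp h).1
    simp only [h1]
  have s5 : mi p Y (fun ω => (M ω, κ ω)) b ≤ e := by
    refine le_trans ?_ hE
    refine mi_mono hp ?_ (fun _ _ _ _ h => (Prod.ext_iff.mp h).1) (fun _ _ _ _ h => h)
      (fun _ _ _ _ h => h)
    intro w w' _ _ h
    exact (Prod.ext_iff.mp (Prod.ext_iff.mp h).1).1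
  have s6 : mi (typ p b M κ) (fun w => κ w.1) (fun w => W w.1) (fun w => b w.1) = mi p κ W b :=
    mi_marg (typ_fst (b := b) (M := M) (κ := κ) hp) κ W b
  have s7 : mi p κ W b ≤ 2 * e := shape_le hp hE hA
  linarith

/-- **(L2)** The height over the typical point is almost independent of the position, the
velocities and the shape. -/
theorem typ_height (hp : ∀ ω, 0 ≤ p ω)
    (hE : mi p (fun ω => (Y ω, E ω)) (fun ω => (M ω, κ ω)) b ≤ e)
    (hA : mi p κ (fun ω => (own M κ ev Y ω, D ω)) (fun ω => ((Y ω, E ω), b ω)) ≤ e)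
    (hB : mi p D (fun ω => (own M κ ev Y ω, κ ω)) (fun ω => ((Y ω, E ω), b ω)) ≤ e) :
    mi (typ p b M κ) (fun w => ht M κ ev (Y w.2) w.1)
      (fun w => (κ w.1, ((Y w.1, E w.1), D w.1))) (fun w => (Y w.2, b w.1)) ≤ 4 * e := by
  have hq := typ_nonneg (b := b) (M := M) (κ := κ) hp
  set V : Ω → (𝒴 × ℰ) × 𝒟 := fun ω => ((Y ω, E ω), D ω) with hV
  have s1 := mi_pr hq (fun w => ht M κ ev (Y w.2) w.1) (fun w => κ w.1) (fun w => V w.1)
    (fun w => (Y w.2, b w.1))
  have s2 : mi (typ p b M κ) (fun w => ht M κ ev (Y w.2) w.1) (fun w => κ w.1)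
      (fun w => (Y w.2, b w.1)) = mi p (own M κ ev Y) κ (fun ω => (Y ω, b ω)) := by
    rw [← mi_marg (typ_snd (b := b) (M := M) (κ := κ) hp) (own M κ ev Y) κ
      (fun ω => (Y ω, b ω))]
    refine mi_repl hq ?_ ?_ ?_
    · intro w hw
      have h4 := typ_eq hp hw
      unfold own ht
      rw [h4.2.1, h4.2.2]
    · intro w hw
      exact (typ_eq hp hw).2.2
    · intro w hw
      rw [(typ_eq hp hw).1]
  have s3 : mi p (own M κ ev Y) κ (fun ω => (Y ω, b ω)) ≤ 2 * e := by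
    rw [mi_symm hp]
    have t1 : mi p κ (own M κ ev Y) (fun ω => (Y ω, b ω)) ≤
        mi p κ (fun ω => (E ω, own M κ ev Y ω)) (fun ω => (Y ω, b ω)) := by
      refine mi_mono hp (fun _ _ _ _ h => (Prod.ext_iff.mp h).1) ?_ (fun _ _ _ _ h => h)
        (fun _ _ _ _ h => h)
      intro w w' _ _ h
      exact (Prod.ext_iff.mp (Prod.ext_iff.mp h).1).2
    have t2 := mi_pr hp κ E (own M κ ev Y) (fun ω => (Y ω, b ω))
    have t3 : mi p κ E (fun ω => (Y ω, b ω)) ≤ e := by
      refine (mi_cond_le hp κ Y E b).trans (le_trans ?_ hE)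
      rw [mi_symm hp (fun ω => (Y ω, E ω))]
      refine mi_mono hp ?_ (fun _ _ _ _ h => (Prod.ext_iff.mp h).1) (fun _ _ _ _ h => h)
        (fun _ _ _ _ h => h)
      intro w w' _ _ h
      exact (Prod.ext_iff.mp (Prod.ext_iff.mp h).1).2
    have t4 : mi p κ (own M κ ev Y) (fun ω => (E ω, (Y ω, b ω))) ≤ e := by
      refine le_trans ?_ hA
      refine mi_mono hp (fun _ _ _ _ h => (Prod.ext_iff.mp h).1) ?_ ?_ ?_
      · intro w w' _ _ h
        exact (Prod.ext_iff.mp (Prod.ext_iff.mp h).1).1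
      · intro w w' _ _ h
        simp only [Prod.mk.injEq] at h ⊢
        tauto
      · intro w w' _ _ h
        simp only [Prod.mk.injEq] at h ⊢
        tauto
    linarith
  have s4 : mi (typ p b M κ) (fun w => ht M κ ev (Y w.2) w.1) (fun w => V w.1)
      (fun w => (κ w.1, (Y w.2, b w.1))) ≤ 2 * e := by
    have t1 : mi (typ p b M κ) (fun w => ht M κ ev (Y w.2) w.1) (fun w => V w.1)
        (fun w => (κ w.1, (Y w.2, b w.1))) ≤ mi (typ p b M κ) (fun w => M w.1) (fun w => V w.1)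
        (fun w => (Y w.2, (κ w.1, b w.1))) := by
      refine mi_mono hq ?_ (fun _ _ _ _ h => (Prod.ext_iff.mp h).1) ?_ ?_
      · intro w w' _ _ h
        simp only [Prod.mk.injEq] at h
        change M w.1 + ev (κ w.1) (Y w.2) = M w'.1 + ev (κ w'.1) (Y w'.2)
        rw [h.1, h.2.1, h.2.2.1]
      · intro w w' _ _ h
        simp only [Prod.mk.injEq] at h ⊢
        tauto
      · intro w w' _ _ h
        simp only [Prod.mk.injEq] at h ⊢
        tauto
    have t2 := mi_cond_le' hq (fun w => M w.1) (fun w => Y w.2) (fun w => V w.1)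
      (fun w => (κ w.1, b w.1))
    have t3 := mi_symm hq (fun w => (M w.1, Y w.2)) (fun w => V w.1) (fun w => (κ w.1, b w.1))
    have t4 := mi_pr hq (fun w => V w.1) (fun w => M w.1) (fun w => Y w.2)
      (fun w => (κ w.1, b w.1))
    have t5 : mi (typ p b M κ) (fun w => V w.1) (fun w => Y w.2)
        (fun w => (M w.1, (κ w.1, b w.1))) = 0 := by
      refine mi_typ (b := b) (M := M) (κ := κ) hp V Y (fun ω => (M ω, (κ ω, b ω))) ?_
      intro ω ω' _ _ h
      unfold lf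
      simp only [Prod.mk.injEq] at h ⊢
      tauto
    have t6 : mi (typ p b M κ) (fun w => V w.1) (fun w => M w.1) (fun w => (κ w.1, b w.1)) =
        mi p V M (fun ω => (κ ω, b ω)) :=
      mi_marg (typ_fst (b := b) (M := M) (κ := κ) hp) V M (fun ω => (κ ω, b ω))
    have t7 := mi_symm hp V M (fun ω => (κ ω, b ω))
    have t8 := mi_pr hp M (fun ω => (Y ω, E ω)) D (fun ω => (κ ω, b ω))
    have t9 : mi p M (fun ω => (Y ω, E ω)) (fun ω => (κ ω, b ω)) ≤ e := by
      refine (mi_cond_le' hp M κ (fun ω => (Y ω, E ω)) b).trans (le_trans ?_ hE)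
      rw [mi_symm hp (fun ω => (Y ω, E ω))]
    have t10 : mi p M D (fun ω => ((Y ω, E ω), (κ ω, b ω))) ≤ e := by
      have u1 : mi p M D (fun ω => ((Y ω, E ω), (κ ω, b ω))) ≤
          mi p (own M κ ev Y) D (fun ω => (κ ω, ((Y ω, E ω), b ω))) := by
        refine mi_mono hp ?_ (fun _ _ _ _ h => (Prod.ext_iff.mp h).1) ?_ ?_
        · intro w w' _ _ h
          simp only [Prod.mk.injEq] at h
          have h1 := h.1
          unfold own ht at h1
          rw [h.2.1, h.2.2.1.1] at h1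
          exact add_right_cancel h1
        · intro w w' _ _ h
          simp only [Prod.mk.injEq] at h ⊢
          tauto
        · intro w w' _ _ h
          simp only [Prod.mk.injEq] at h ⊢
          tauto
      have u2 := mi_cond_le' hp (own M κ ev Y) κ D (fun ω => ((Y ω, E ω), b ω))
      have u3 := mi_symm hp (fun ω => (own M κ ev Y ω, κ ω)) D (fun ω => ((Y ω, E ω), b ω))
      linarith
    have t11 : mi p M V (fun ω => (κ ω, b ω)) =
      mi p M (fun ω => ((Y ω, E ω), D ω)) (fun ω => (κ ω, b ω)) := rfl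
    linarith
  linarith

end

end Pool.L12
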