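import Pool.Agent.H24.GN.L12

/-!
# Planks

`L` and `R` are almost independent given the context `c`. If `V` is full given `c` and lies in a
plank given `L`, then it is full on the complementary plank given `R` (`plank`). If moreover the
height `nu` is known on the plank of `L`, then `nu` is almost independent of `R` given `V`
(`nu_le`). If `A` and `B` are almost independent given `V`, then the fullness of `V` given `A` and
given `B` implies the fullness given both (`ful2`); for conditional copies given `(c, V, nu)` this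
is `ful2_glue`.
-/

set_option autoImplicit false

namespace Pool.L12

open Finset Real
open Pool.Agent.H49.Ent Pool.Agent.H32.Dense Pool.STK Pool.KS3
open Pool.LIVE20 (mi mi_nonneg)

section

variable {Ω 𝒱 ℒ ℛ 𝒞 𝒩 : Type} [Fintype Ω] {p : Ω → ℝ}

/-- **The plank lemma.** -/
theorem plank (hp : ∀ ω, 0 ≤ p ω) (V : Ω → 𝒱) (L : Ω → ℒ) (R : Ω → ℛ) (c : Ω → 𝒞) :
    CH p V c - CH p V (fun ω => (L ω, c ω)) - mi p L R c ≤ CH p V (fun ω => (R ω, c ω)) := by
  have h1 := mi_pr hp L R V c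
  have h2 : mi p L V c ≤ mi p L (fun ω => (R ω, V ω)) c := by
    refine mi_mono hp (fun _ _ _ _ h => (Prod.ext_iff.mp h).1) ?_ (fun _ _ _ _ h => h)
      (fun _ _ _ _ h => h)
    intro ω ω' _ _ h
    exact (Prod.ext_iff.mp (Prod.ext_iff.mp h).1).2
  have h3 := mi_symm hp L V c
  have h4 := mi_symm hp L V (fun ω => (R ω, c ω))
  have h5 : mi p V L (fun ω => (R ω, c ω)) ≤ CH p V (fun ω => (R ω, c ω)) := by
    unfold mi
    have := CH_nonneg hp V (fun ω => (L ω, (R ω, c ω)))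
    linarith
  have h6 : mi p V L c = CH p V c - CH p V (fun ω => (L ω, c ω)) := rfl
  linarith

/-- The height given the position and the other side. -/
theorem nu_le (hp : ∀ ω, 0 ≤ p ω) (V : Ω → 𝒱) (nu : Ω → 𝒩) (L : Ω → ℒ) (R : Ω → ℛ)
    (c : Ω → 𝒞) :
    mi p nu R (fun ω => (V ω, c ω)) ≤ mi p L R c + (CH p (fun ω => (nu ω, V ω))
      (fun ω => (L ω, c ω)) + CH p V (fun ω => (R ω, c ω)) - CH p V c) := by
  have h1 := plank hp (fun ω => (nu ω, V ω)) L R c
  have e1 : CH p (fun ω => (nu ω, V ω)) c = CH p V c + CH p nu (fun ω => (V ω, c ω)) :=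
    CH_chain hp nu V c
  have e2 : CH p (fun ω => (nu ω, V ω)) (fun ω => (R ω, c ω)) = CH p V (fun ω => (R ω, c ω)) +
      CH p nu (fun ω => (V ω, (R ω, c ω))) := CH_chain hp nu V (fun ω => (R ω, c ω))
  have e3 : CH p nu (fun ω => (R ω, (V ω, c ω))) = CH p nu (fun ω => (V ω, (R ω, c ω))) := by
    refine CH_congr hp (fun _ _ _ _ h => (Prod.ext_iff.mp h).1)
      (fun _ _ _ _ h => (Prod.ext_iff.mp h).1) ?_ ?_ <;>
    · intro ω ω' _ _ h
      simp only [Prod.mk.injEq] at h ⊢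
      tauto
  unfold mi at h1 ⊢
  linarith

/-- **Two sides.** -/
theorem ful2 (hp : ∀ ω, 0 ≤ p ω) (V : Ω → 𝒱) (A : Ω → ℒ) (B : Ω → ℛ) (c : Ω → 𝒞) :
    CH p V (fun ω => (A ω, c ω)) + CH p V (fun ω => (B ω, c ω)) - CH p V c -
      mi p A B (fun ω => (V ω, c ω)) ≤ CH p V (fun ω => ((A ω, B ω), c ω)) := by
  have h1 := mi_pr hp V A B c
  have h2 := mi_pr hp B A V c
  have h3 := mi_pr hp B V A c
  have h4 : mi p B (fun ω => (A ω, V ω)) c = mi p B (fun ω => (V ω, A ω)) c := by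
    refine le_antisymm ?_ ?_ <;>
    · refine mi_mono hp (fun _ _ _ _ h => (Prod.ext_iff.mp h).1) ?_ (fun _ _ _ _ h => h)
        (fun _ _ _ _ h => h)
      intro ω ω' _ _ h
      simp only [Prod.mk.injEq] at h ⊢
      tauto
  have h5 := mi_nonneg hp B A c
  have h6 := mi_symm hp V B (fun ω => (A ω, c ω))
  have h7 := mi_symm hp V B c
  have h8 := mi_symm hp A B (fun ω => (V ω, c ω))
  have e1 : mi p V A c = CH p V c - CH p V (fun ω => (A ω, c ω)) := rfl
  have e2 : mi p V B c = CH p V c - CH p V (fun ω => (B ω, c ω)) := rfl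
  have e3 : mi p V (fun ω => (A ω, B ω)) c = CH p V c - CH p V (fun ω => ((A ω, B ω), c ω)) := rfl
  linarith

end

section

variable {Ω 𝒱 ℒ ℛ 𝒞 𝒩 : Type} [Fintype Ω] {p : Ω → ℝ}

/-- The context, the position and the height. -/
def cvn (c : Ω → 𝒞) (V : Ω → 𝒱) (nu : Ω → 𝒩) (ω : Ω) : 𝒞 × (𝒱 × 𝒩) := (c ω, (V ω, nu ω))

/-- Two samples with the same context, position and height, conditionally independent. -/
noncomputable def cpl (p : Ω → ℝ) (c : Ω → 𝒞) (V : Ω → 𝒱) (nu : Ω → 𝒩) : Ω × Ω → ℝ :=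
  glue p p (cvn c V nu) (cvn c V nu)

variable {c : Ω → 𝒞} {V : Ω → 𝒱} {nu : Ω → 𝒩}

theorem cpl_nonneg (hp : ∀ ω, 0 ≤ p ω) (w : Ω × Ω) : 0 ≤ cpl p c V nu w := glue_nonneg hp hp w

theorem cpl_fst (hp : ∀ ω, 0 ≤ p ω) : Marg (cpl p c V nu) p (fun w => w.1) :=
  marg_fst hp (fun _ => rfl)

theorem cpl_snd (hp : ∀ ω, 0 ≤ p ω) : Marg (cpl p c V nu) p (fun w => w.2) :=
  marg_snd hp (fun _ => rfl)

theorem cpl_isLaw (hp : IsLaw p) : IsLaw (cpl p c V nu) where
  nonneg := cpl_nonneg hp.nonneg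
  sum_one := by
    rw [← hp.sum_one]
    exact sum_glue hp.nonneg (fun _ => rfl)

theorem cpl_eq (hp : ∀ ω, 0 ≤ p ω) {w : Ω × Ω} (hw : 0 < cpl p c V nu w) :
    c w.1 = c w.2 ∧ V w.1 = V w.2 ∧ nu w.1 = nu w.2 := by
  have h := ((glue_pos_iff hp hp w).1 hw).2.2
  unfold cvn at h
  simp only [Prod.mk.injEq] at h
  exact h

theorem mi_cpl (hp : ∀ ω, 0 ≤ p ω) (A : Ω → ℒ) (B : Ω → ℛ) :
    mi (cpl p c V nu) (fun w => A w.1) (fun w => B w.2) (fun w => cvn c V nu w.1) = 0 := by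
  have h4 : CI (cpl p c V nu) (fun w => A w.1) (fun w => B w.2) (fun w => cvn c V nu w.1) :=
    CI_glue hp hp (fun _ => rfl) A B
  unfold CI at h4
  unfold mi
  rw [h4, sub_self]

/-- The two sides are almost independent given the position. -/
theorem mi_cpl_le (hp : ∀ ω, 0 ≤ p ω) (A : Ω → ℒ) (B : Ω → ℛ) :
    mi (cpl p c V nu) (fun w => A w.1) (fun w => B w.2) (fun w => (V w.1, c w.1)) ≤
      mi p nu A (fun ω => (V ω, c ω)) := by
  have hq := cpl_nonneg (c := c) (V := V) (nu := nu) hp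
  have h1 := mi_pr hq (fun w => A w.1) (fun w => nu w.1) (fun w => B w.2)
    (fun w => (V w.1, c w.1))
  have h2 : mi (cpl p c V nu) (fun w => A w.1) (fun w => B w.2) (fun w => (V w.1, c w.1)) ≤
      mi (cpl p c V nu) (fun w => A w.1) (fun w => (nu w.1, B w.2)) (fun w => (V w.1, c w.1)) := by
    refine mi_mono hq (fun _ _ _ _ h => (Prod.ext_iff.mp h).1) ?_ (fun _ _ _ _ h => h)
      (fun _ _ _ _ h => h)
    intro w w' _ _ h
    exact (Prod.ext_iff.mp (Prod.ext_iff.mp h).1).2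
  have h3 : mi (cpl p c V nu) (fun w => A w.1) (fun w => B w.2)
      (fun w => (nu w.1, (V w.1, c w.1))) = 0 := by
    rw [← mi_cpl (c := c) (V := V) (nu := nu) hp A B]
    unfold cvn mi
    congr 1
    · refine CH_congr hq (fun _ _ _ _ h => (Prod.ext_iff.mp h).1)
        (fun _ _ _ _ h => (Prod.ext_iff.mp h).1) ?_ ?_ <;>
      · intro w w' _ _ h
        simp only [Prod.mk.injEq] at h ⊢
        tauto
    · refine CH_congr hq (fun _ _ _ _ h => (Prod.ext_iff.mp h).1)
        (fun _ _ _ _ h => (Prod.ext_iff.mp h).1) ?_ ?_ <;>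
      · intro w w' _ _ h
        simp only [Prod.mk.injEq] at h ⊢
        tauto
  have h4 : mi (cpl p c V nu) (fun w => A w.1) (fun w => nu w.1) (fun w => (V w.1, c w.1)) =
      mi p A nu (fun ω => (V ω, c ω)) :=
    mi_marg (cpl_fst (c := c) (V := V) (nu := nu) hp) A nu (fun ω => (V ω, c ω))
  have h5 := mi_symm hp A nu (fun ω => (V ω, c ω))
  linarith

/-- **Two sides for the coupled law.** -/
theorem ful2_cpl (hp : ∀ ω, 0 ≤ p ω) (A : Ω → ℒ) (B : Ω → ℛ) :
    CH p V (fun ω => (A ω, c ω)) + CH p V (fun ω => (B ω, c ω)) - CH p V c -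
      mi p nu A (fun ω => (V ω, c ω)) ≤
      CH (cpl p c V nu) (fun w => V w.1) (fun w => ((A w.1, B w.2), c w.1)) := by
  have hq := cpl_nonneg (c := c) (V := V) (nu := nu) hp
  have h1 := ful2 hq (fun w => V w.1) (fun w => A w.1) (fun w => B w.2) (fun w => c w.1)
  have h2 := mi_cpl_le (c := c) (V := V) (nu := nu) hp A B
  have m1 := cpl_fst (p := p) (c := c) (V := V) (nu := nu) hp
  have m2 := cpl_snd (p := p) (c := c) (V := V) (nu := nu) hp
  have e1 := m1.CH V (fun ω => (A ω, c ω))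
  have e2 := m2.CH V (fun ω => (B ω, c ω))
  have e3 := m1.CH V c
  have e4 : CH (cpl p c V nu) (fun w => V w.1) (fun w => (B w.2, c w.1)) =
      CH (cpl p c V nu) (fun w => V w.2) (fun w => (B w.2, c w.2)) := by
    refine CH_repl hq ?_ ?_
    · intro w hw
      exact (cpl_eq hp hw).2.1
    · intro w hw
      rw [(cpl_eq hp hw).1]
  linarith

end

end Pool.L12
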